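import Pool.Agent.W986.ClusterSurf

/-!
MP_986d1b_co. Every graph on a closed surface of Euler characteristic at least `0` (sphere,
projective plane, torus, Klein bottle) has, from all lists of at least four colours, a colouring
whose monochromatic components are paths with at most three vertices.

`mono G c`: the graph of the monochromatic edges of the colouring `c` of `G`
(`Adj u v := G.Adj u v ∧ c u = c v`). `TreeChoosable G k N`: from all lists of at least `k` colours
there is a colouring such that every component of `mono G c` is a tree with at most `N` vertices; for
`N = 3` the components are paths with at most three vertices. `OnSurface χ H`: `H` is a subgraph of a
finite connected simple graph which has facial walks (closed walks, one for every face, which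
together traverse every edge exactly twice, such that the faces cannot be divided into two classes
without a common edge) with `V - E + F = χ`.

A `(4, 1)`-colouring would be a colouring with at most two vertices in every component.
-/

set_option autoImplicit false

namespace Pool.Agent.Results.MP_986d1b_co.ClusterThree

open Pool.Agent.DC76 Pool.Agent.W986 Pool.Agent.W986.Cluster

theorem result {U : Type} (H : SimpleGraph U) (χ : ℤ) (hχ : 0 ≤ χ) (h : OnSurface χ H) :
    TreeChoosable H 4 3 :=
  surface H χ hχ h

end Pool.Agent.Results.MP_986d1b_co.ClusterThree
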