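import Pool.Agent.W986.Dat.All

/-!
MP_986d1b_co, question Q2 (Woodall 1990), full answer: every projective-planar graph has a
`(k, d)`-colouring if and only if `k ≥ 3` and `d ≥ 2`, or `k ≥ 4` and `d ≥ 1`, or `k ≥ 6`.

`ProjectivePlanar H` (file `Pool/Agent/W986/Precise.lean`): the graph `H` is a subgraph of a finite
connected simple graph `G` which has facial walks (closed walks, one for every face, which together
traverse every edge exactly twice, such that the faces cannot be divided into two classes without a
common edge), whose corners at every vertex `v` form one cycle through the neighbours of `v` (so the
surface obtained by gluing a disc into every facial walk has no pinched points), and with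
`V - E + F = 1`. These are the cellular embeddings of connected simple graphs in the projective
plane; every graph which embeds in the projective plane is a subgraph of a simple triangulation.

`Defective H d c`: every vertex has at most `d` neighbours of its own colour.
-/

set_option autoImplicit false

namespace Pool.Agent.Results.MP_986d1b_co.ProjectivePlane

open Pool.Agent.DC76 Pool.Agent.W986

theorem result (k d : ℕ) :
    (∀ (U : Type) (H : SimpleGraph U), ProjectivePlanar H → ∃ c : U → Fin k, Defective H d c) ↔
      (3 ≤ k ∧ 2 ≤ d) ∨ (4 ≤ k ∧ 1 ≤ d) ∨ 6 ≤ k :=
  projective_answer k d

end Pool.Agent.Results.MP_986d1b_co.ProjectivePlane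


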