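import Pool.Agent.W986.FiveMain

/-!
MP_986d1b_co, Q1 and Q2. Every graph which embeds in a closed surface of Euler characteristic
`χ ≥ 0` has a colouring with four colours in which the monochromatic edges form a matching together
with at most `3 (2 - χ)` further edges, which are pairwise disjoint if there are at most three.

`Embeds o χ H` (file `Pool/Agent/W986/Precise.lean`): the graph `H` is a subgraph of a finite
connected simple graph `G` which has facial walks (closed walks, one for every face, which together
traverse every edge exactly twice, such that the faces cannot be divided into two classes without a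
common edge) with `V - E + F = χ`, such that the corners of the facial walks at every vertex form
one cycle through its neighbours; if `o` holds, then the facial walks traverse every edge once in
each direction. So `Embeds True 0 H` (also called `Toroidal H`) says that `H` embeds in the torus,
and `Embeds False 1 H` (also called `ProjectivePlanar H`) that `H` embeds in the projective plane.

`Defective H d c`: every vertex has at most `d` neighbours of its own colour.
-/

set_option autoImplicit false

namespace Pool.Agent.Results.MP_986d1b_co.ThreeExtra

open Pool.Agent.DC76 Pool.Agent.W986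

theorem result {U : Type} (H : SimpleGraph U) {o : Prop} {χ : ℤ} (hχ : 0 ≤ χ)
    (h : Embeds o χ H) :
    ∃ (c : U → Fin 4) (E : Finset (Sym2 U)), (E : Set (Sym2 U)) ⊆ H.edgeSet ∧
      (E.card : ℤ) ≤ 3 * (2 - χ) ∧
      (E.card ≤ 3 → ∀ e ∈ E, ∀ e' ∈ E, ∀ v, v ∈ e → v ∈ e' → e = e') ∧
      Defective (H.deleteEdges E) 1 c := by
  obtain ⟨c, E, h1, h2, h3, h4⟩ := Five.extra H hχ h
  refine ⟨c, E, h1, h2, fun hE e he e' he' v hv hv' => ?_, h4⟩
  obtain ⟨x, rfl⟩ := Sym2.mem_iff_exists.1 hv
  obtain ⟨y, rfl⟩ := Sym2.mem_iff_exists.1 hv'
  rw [h3 hE v x y he he']

end Pool.Agent.Results.MP_986d1b_co.ThreeExtra
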