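import Pool.Agent.DC76.Main

/-!
MP_986d1b_co. Every graph on a closed surface of Euler characteristic at least `0` (sphere,
projective plane, torus, Klein bottle) has a `(3, 2)`-colouring.

`OnSurface χ H` (file `Pool/Agent/DC76/Defs.lean`): the graph `H` is a subgraph of a finite connected
simple graph `G` which has facial walks (closed walks, one for every face, which together traverse
every edge exactly twice, such that the faces cannot be divided into two classes without a common
edge) with `V - E + F = χ`. For a cellular embedding of `G` in a closed surface the boundary walks of
the faces are facial walks and `V - E + F` is the Euler characteristic; every graph embedded in a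
closed connected surface is a subgraph of a simple graph which triangulates the surface. The
definition also allows surfaces with pinched vertices.

`Defective H d c`: every vertex has at most `d` neighbours of its own colour.
-/

set_option autoImplicit false

namespace Pool.Agent.Results.MP_986d1b_co.ThreeTwo

open Pool.Agent.DC76

theorem result {U : Type} (H : SimpleGraph U) (χ : ℤ) (hχ : 0 ≤ χ) (h : OnSurface χ H) :
    ∃ c : U → Fin 3, Defective H 2 c :=
  main H χ hχ h

end Pool.Agent.Results.MP_986d1b_co.ThreeTwo
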